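import Pool.Agent.H686Z.Free.Main

set_option autoImplicit false

namespace Pool.Agent.Results.MP_71cd47_an.NotIso

open Pool.Agent.H686Z.Free

/-- **Q1, negative answer.** No closed subspace of the Lipschitz-free space over `ℝ × ℤ`
(in particular not the whole space) admits a bounded linear bijection onto the
Lipschitz-free space over the Euclidean plane; base points are arbitrary. -/
theorem result (o : RZ) (o' : Plane) : ¬ SubspaceOnto (FreeSp o) (FreeSp o') :=
  fun ⟨W, hW, T, hT⟩ => no_bijection o o' W hW T hT

end Pool.Agent.Results.MP_71cd47_an.NotIso
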